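import Pool.Agent.ETCP.QStr

/-!
# Commutative value groups: basic lemmas (helper50)

`S` is a quaternionic data structure with `e = 0` (that is `-1 = 1`), and the value group
`V_p = {h | C p h}` is commutative.
-/

set_option autoImplicit false
set_option linter.unnecessarySeqFocus false
set_option linter.unusedVariables false
set_option linter.unusedSimpArgs false
set_option linter.unusedSectionVars false
set_option linter.unusedVariables false

namespace Pool.Agent.ETCF

open Pool.Agent.Helper58.PLine (QData)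
open Pool.Agent.ETCP

variable {V Q : Type} [AddCommGroup V] [Module (ZMod 2) V] {S : QData V Q}

theorem addq {x y a b a' b' : V} (h : S.q x a = S.q y b) (h' : S.q x a' = S.q y b') :
    S.q x (a + a') = S.q y (b + b') := by
  obtain ⟨t, h1, h2, h3⟩ := link h
  obtain ⟨t', h1', h2', h3'⟩ := link h'
  have e1 : S.q x (a + a') = S.q x (t + t') := q_eq ((h1.add h1').of_eq rfl (by exact eo (by abel_nf <;> simp only [ch2, ch3, ch4, ch5, ch6, add_zero, zero_add])))
  have e2 : S.q x (t + t') = S.q y (t + t') := q_eq' (h3.add h3')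
  have e3 : S.q y (b + b') = S.q y (t + t') := q_eq ((h2.add h2').of_eq rfl (by exact eo (by abel_nf <;> simp only [ch2, ch3, ch4, ch5, ch6, add_zero, zero_add])))
  rw [e1, e2, e3]

theorem addq2 {g k a b : V} (h : S.q g a = S.q k b) : S.q (g + k) a = S.q k (a + b) := by
  obtain ⟨t, h1, h2, h3⟩ := link h
  have e1 : S.q (g + k) a = S.q (g + k) (a + t) := q_eq (h3.of_eq rfl (by exact eo (by abel_nf <;> simp only [ch2, ch3, ch4, ch5, ch6, add_zero, zero_add])))
  have e2 : S.q (g + k) (a + t) = S.q k (a + t) := q_eq' (h1.of_eq (by exact eo (by abel_nf <;> simp only [ch2, ch3, ch4, ch5, ch6, add_zero, zero_add])) rfl)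
  have e3 : S.q k (a + t) = S.q k (a + b) := q_eq (h2.of_eq rfl (by exact eo (by abel_nf <;> simp only [ch2, ch3, ch4, ch5, ch6, add_zero, zero_add])))
  rw [e1, e2, e3]

section count0
open Finset

open Classical in
theorem coset_le [Fintype V] (A L : V → Prop)
    (hA : ∀ a b, A a → A b → A (a + b)) (hL : ∀ a b, L a → L b → L (a + b)) (x : V) :
    (univ.filter (fun c => A c ∧ L (c + x))).card ≤
      (univ.filter (fun c => A c ∧ L c)).card := by
  rcases (univ.filter (fun c => A c ∧ L (c + x))).eq_empty_or_nonempty with h | ⟨c0, h⟩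
  · rw [h, card_empty]; exact Nat.zero_le _
  · rw [mem_filter] at h
    obtain ⟨-, h1, h2⟩ := h
    apply card_le_card_of_injOn (fun c => c + c0)
    · intro c hc
      rw [coe_filter, Set.mem_ofPred_eq] at *
      refine ⟨mem_univ _, hA _ _ hc.2.1 h1, ?_⟩
      have := hL _ _ hc.2.2 h2
      rwa [show c + x + (c0 + x) = c + c0 by exact eo (by abel_nf <;> simp only [ch2, ch3, ch4, ch5, ch6, add_zero, zero_add])] at this
    · intro a _ b _ hab
      exact add_right_cancel hab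

open Classical in
theorem coset_eq [Fintype V] (A L : V → Prop)
    (hA : ∀ a b, A a → A b → A (a + b)) (hL : ∀ a b, L a → L b → L (a + b)) (x : V)
    (h : ∃ c, A c ∧ L (c + x)) :
    (univ.filter (fun c => A c ∧ L (c + x))).card =
      (univ.filter (fun c => A c ∧ L c)).card := by
  apply le_antisymm (coset_le A L hA hL x)
  obtain ⟨c0, h1, h2⟩ := h
  apply card_le_card_of_injOn (fun c => c + c0)
  · intro c hc
    rw [coe_filter, Set.mem_ofPred_eq] at *
    refine ⟨mem_univ _, hA _ _ hc.2.1 h1, ?_⟩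
    have := hL _ _ hc.2.2 h2
    rwa [show c + (c0 + x) = c + c0 + x by exact eo (by abel_nf <;> simp only [ch2, ch3, ch4, ch5, ch6, add_zero, zero_add])] at this
  · intro a _ b _ hab
    exact add_right_cancel hab

end count0

/-! ### roundness -/

theorem rnd1 (he : S.e = 0) {b : Q} {p x1 x2 : V} (hp : ∃ t, S.q p t = b)
    (h1 : ∃ t, S.q x1 t = b) (h2 : ∃ t, S.q x2 t = b) :
    ∃ s v, (∃ t, S.q s t = b) ∧ C S p v ∧ x1 + x2 = s + v := by
  obtain ⟨tp, hp⟩ := hp
  obtain ⟨t1, h1⟩ := h1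
  obtain ⟨t2, h2⟩ := h2
  -- common slot of `x1`, `p`
  obtain ⟨r1, a1, a2⟩ := S.link _ _ _ _ (h1.trans hp.symm)
  have b1 : S.q x1 r1 = b := by rw [← a1, h1]
  have b2 : S.q p r1 = b := by rw [← a2, hp]
  have b3 : S.q (x1 + r1) r1 = b := by
    rw [← b1]
    exact q_eq' ((C.self he r1).of_eq (by exact eo (by abel_nf <;> simp only [ch2, ch3, ch4, ch5, ch6, add_zero, zero_add])) rfl)
  obtain ⟨t, a3, a4⟩ := S.link _ _ _ _ (b3.trans h2.symm)
  have b4 : S.q (x1 + r1) t = b := by rw [← a3, b3]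
  have b5 : S.q x2 t = b := by rw [← a4, h2]
  have b6 : S.q t x2 = b := by rw [S.symm]; exact b5
  obtain ⟨r, a5, a6⟩ := S.link _ _ _ _ (b6.trans hp.symm)
  have b7 : S.q t r = b := by rw [← a5, b6]
  have b8 : S.q p r = b := by rw [← a6, hp]
  have c1 : C S t (x1 + r1 + x2) := by
    rw [← q_eq_iff, S.symm t, S.symm t, b4, b5]
  refine ⟨x1 + r1 + x2 + r, r + r1, ⟨t, ?_⟩, ?_, by exact eo (by abel_nf <;> simp only [ch2, ch3, ch4, ch5, ch6, add_zero, zero_add])⟩
  · rw [S.symm, ← b7]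
    exact q_eq (c1.of_eq rfl (by exact eo (by abel_nf <;> simp only [ch2, ch3, ch4, ch5, ch6, add_zero, zero_add])))
  · rw [← q_eq_iff, b8, b2]

theorem rnd2 (he : S.e = 0) {b : Q} {p s v : V} (hp : ∃ t, S.q p t = b)
    (hs : ∃ t, S.q s t = b) (hv : C S p v) :
    ∃ x1 x2, (∃ t, S.q x1 t = b) ∧ (∃ t, S.q x2 t = b) ∧ s + v = x1 + x2 := by
  obtain ⟨tp, hp⟩ := hp
  obtain ⟨ts, hs⟩ := hs
  obtain ⟨t, a1, a2⟩ := S.link _ _ _ _ (hs.trans hp.symm)
  have b1 : S.q s t = b := by rw [← a1, hs]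
  have b2 : S.q p t = b := by rw [← a2, hp]
  refine ⟨s + t, t + v, ⟨t, ?_⟩, ⟨p, ?_⟩, by exact eo (by abel_nf <;> simp only [ch2, ch3, ch4, ch5, ch6, add_zero, zero_add])⟩
  · rw [← b1]
    exact q_eq' ((C.self he t).of_eq (by exact eo (by abel_nf <;> simp only [ch2, ch3, ch4, ch5, ch6, add_zero, zero_add])) rfl)
  · rw [S.symm, ← b2]
    exact q_eq (hv.of_eq rfl (by exact eo (by abel_nf <;> simp only [ch2, ch3, ch4, ch5, ch6, add_zero, zero_add])))

theorem rnd (he : S.e = 0) {b : Q} {p s1 v1 s2 v2 : V} (hp : ∃ t, S.q p t = b)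
    (hs1 : ∃ t, S.q s1 t = b) (hv1 : C S p v1) (hs2 : ∃ t, S.q s2 t = b) (hv2 : C S p v2) :
    ∃ s v, (∃ t, S.q s t = b) ∧ C S p v ∧ s1 + v1 + (s2 + v2) = s + v := by
  obtain ⟨x1, x2, ⟨t1, h1⟩, ⟨t2, h2⟩, e1⟩ := rnd2 he hp hs1 hv1
  obtain ⟨y1, y2, h3, h4, e2⟩ := rnd2 he hp hs2 hv2
  obtain ⟨t, a1, a2⟩ := S.link _ _ _ _ (h1.trans h2.symm)
  have b1 : S.q x1 t = b := by rw [← a1, h1]
  have b2 : S.q x2 t = b := by rw [← a2, h2]
  have ht : ∃ r, S.q t r = b := ⟨x1, by rw [S.symm]; exact b1⟩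
  have c1 : C S t (x1 + x2) := by
    rw [← q_eq_iff, S.symm t, S.symm t, b1, b2]
  obtain ⟨s, v, hs, hv, e3⟩ := rnd1 he ht h3 h4
  obtain ⟨z1, z2, hz1, hz2, e4⟩ := rnd2 he ht hs (hv.add c1)
  obtain ⟨s', v', hs', hv', e5⟩ := rnd1 he hp hz1 hz2
  refine ⟨s', v', hs', hv', ?_⟩
  rw [← e5, ← e4, e1, e2, e3]
  exact eo (by abel_nf <;> simp only [ch2, ch3, ch4, ch5, ch6, add_zero, zero_add])

/-! ### commutative `V_p` -/

variable (S) in
/-- `V_p` is commutative and `e = 0` -/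
structure Cm (p : V) : Prop where
  he : S.e = 0
  comm : ∀ g h, C S p g → C S p h → C S g h

variable (S) in
/-- `c ∈ K_h(y) = V_(y+h) + V_p` -/
def Kin (p y h c : V) : Prop := ∃ k, C S p k ∧ C S (y + h) (c + k)

variable (S) in
/-- `q (f, c) ∈ I_y = q (V_p, y)` -/
def Pin (p y f c : V) : Prop := ∃ k, C S p k ∧ S.q f c = S.q k y

variable (S) in
/-- `c ∈ G_y`, the union of the `K_h(y)` -/
def Gin (p y c : V) : Prop := ∃ h, C S p h ∧ Kin S p y h c

theorem Kin.add {p y h c c' : V} (h1 : Kin S p y h c) (h2 : Kin S p y h c') :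
    Kin S p y h (c + c') := by
  obtain ⟨k, hk, e⟩ := h1
  obtain ⟨k', hk', e'⟩ := h2
  exact ⟨k + k', hk.add hk', (e.add e').of_eq rfl (by exact eo (by abel_nf <;> simp only [ch2, ch3, ch4, ch5, ch6, add_zero, zero_add]))⟩

theorem Kin.of_E {p y h c : V} (h1 : C S p c) : Kin S p y h c :=
  ⟨c, h1, (C.zero _).of_eq rfl (by exact eo (by abel_nf <;> simp only [ch2, ch3, ch4, ch5, ch6, add_zero, zero_add]))⟩

theorem Pin.add {p y f c c' : V} (h1 : Pin S p y f c) (h2 : Pin S p y f c') :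
    Pin S p y f (c + c') := by
  obtain ⟨k, hk, e⟩ := h1
  obtain ⟨k', hk', e'⟩ := h2
  refine ⟨k + k', hk.add hk', ?_⟩
  rw [S.symm (k + k')]
  exact addq (by rw [e, S.symm]) (by rw [e', S.symm])

namespace Cm

variable {p : V} (X : Cm S p)
include X

theorem pp : C S p p := C.self X.he p

theorem self (x : V) : C S x x := C.self X.he x

/-- replace `y` by `y + h` in `q (k, y)` -/
theorem shq {k h y : V} (hk : C S p k) (hh : C S p h) : S.q k (y + h) = S.q k y :=
  q_eq ((X.comm _ _ hk hh).of_eq rfl (by exact eo (by abel_nf <;> simp only [ch2, ch3, ch4, ch5, ch6, add_zero, zero_add])))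

theorem Pin_zero {y f : V} : Pin S p y f 0 :=
  ⟨0, C.zero p, by rw [show S.q f 0 = S.z from C.zero f, show S.q 0 y = S.z from C.zero' y]⟩

theorem Pin_of_E {y f c : V} (hf : C S p f) (hc : C S p c) : Pin S p y f c :=
  ⟨0, C.zero p, by rw [show S.q f c = S.z from X.comm _ _ hf hc,
    show S.q 0 y = S.z from C.zero' y]⟩

theorem Kin_iff {y h h' c : V} (hh : C S p h) (hh' : C S p h') (h1 : Kin S p y h c) :
    Kin S p y h' c ↔ Pin S p y (h + h') c := by
  obtain ⟨k, hk, e⟩ := h1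
  constructor
  · rintro ⟨k', hk', e'⟩
    refine ⟨k + k', hk.add hk', ?_⟩
    have a1 : S.q (y + h') (c + k) = S.q (y + h') (k + k') := q_eq (e'.of_eq rfl (by exact eo (by abel_nf <;> simp only [ch2, ch3, ch4, ch5, ch6, add_zero, zero_add])))
    have a2 : S.q (y + h') (c + k) = S.q (h + h') (c + k) := q_eq' (e.of_eq (by exact eo (by abel_nf <;> simp only [ch2, ch3, ch4, ch5, ch6, add_zero, zero_add])) rfl)
    have a3 : S.q (h + h') (c + k) = S.q (h + h') c := X.shq (hh.add hh') hk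
    have a4 : S.q (k + k') (y + h') = S.q (k + k') y := X.shq (hk.add hk') hh'
    rw [← a3, ← a2, a1, S.symm, a4]
  · rintro ⟨j, hj, e'⟩
    refine ⟨k + j, hk.add hj, ?_⟩
    have a1 : S.q (h + h') (c + (k + j)) = S.q j y := by
      rw [X.shq (hh.add hh') (hk.add hj), e']
    have a2 : S.q (y + h) (c + (k + j)) = S.q j y := by
      rw [← X.shq hj hh, S.symm j]
      exact q_eq (e.of_eq rfl (by exact eo (by abel_nf <;> simp only [ch2, ch3, ch4, ch5, ch6, add_zero, zero_add])))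
    have a3 := q_eq'_iff.1 (a1.trans a2.symm)
    exact a3.of_eq (by exact eo (by abel_nf <;> simp only [ch2, ch3, ch4, ch5, ch6, add_zero, zero_add])) rfl

theorem Gin_iff {y c : V} :
    Gin S p y c ↔ ∃ s v, (∃ t, S.q s t = S.q p y) ∧ C S p v ∧ c = s + v := by
  constructor
  · rintro ⟨h, hh, k, hk, e⟩
    refine ⟨p + (c + k), p + k, ⟨y + h, ?_⟩, X.pp.add hk, by exact eo (by abel_nf <;> simp only [ch2, ch3, ch4, ch5, ch6, add_zero, zero_add])⟩
    have a1 : S.q (p + (c + k)) (y + h) = S.q p (y + h) := q_eq' (e.symm.of_eq (by exact eo (by abel_nf <;> simp only [ch2, ch3, ch4, ch5, ch6, add_zero, zero_add])) rfl)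
    rw [a1]
    exact X.shq X.pp hh
  · rintro ⟨s, v, ⟨t, ht⟩, hv, rfl⟩
    obtain ⟨r, h1, h2, h3⟩ := link ht.symm
    refine ⟨y + r, h1, v + p, hv.add X.pp, ?_⟩
    exact h3.symm.of_eq (by exact eo (by abel_nf <;> simp only [ch2, ch3, ch4, ch5, ch6, add_zero, zero_add])) (by exact eo (by abel_nf <;> simp only [ch2, ch3, ch4, ch5, ch6, add_zero, zero_add]))

/-- `G_y` is a subgroup -/
theorem Gin_add {y c c' : V} (h : Gin S p y c) (h' : Gin S p y c') : Gin S p y (c + c') := by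
  rw [X.Gin_iff] at *
  obtain ⟨s, v, hs, hv, rfl⟩ := h
  obtain ⟨s', v', hs', hv', rfl⟩ := h'
  obtain ⟨s2, v2, hs2, hv2, e⟩ := rnd X.he ⟨y, rfl⟩ hs hv hs' hv'
  exact ⟨s2, v2, hs2, hv2, e⟩

/-! ### the coset principle -/

section count
open Finset

open Classical in
theorem dcount [Fintype V] (y : V) (L : V → Prop) :
    ∑ h ∈ univ.filter (fun h => C S p h), (univ.filter (fun c => Kin S p y h c ∧ L c)).card =
      ∑ f ∈ univ.filter (fun h => C S p h),
        (univ.filter (fun c => (Pin S p y f c ∧ Gin S p y c) ∧ L c)).card := by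
  simp only [card_filter]
  rw [sum_comm]
  conv_rhs => rw [sum_comm]
  apply sum_congr rfl
  intro c _
  by_cases hL : L c
  · by_cases hG : Gin S p y c
    · obtain ⟨h0, hh0, hK⟩ := id hG
      simp only [hL, hG, and_true]
      apply sum_nbij' (fun h => h + h0) (fun f => f + h0)
      · intro h hh
        rw [mem_filter] at *
        exact ⟨mem_univ _, hh.2.add hh0⟩
      · intro h hh
        rw [mem_filter] at *
        exact ⟨mem_univ _, hh.2.add hh0⟩
      · intro h _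
        exact (by exact eo (by abel_nf <;> simp only [ch2, ch3, ch4, ch5, ch6, add_zero, zero_add]))
      · intro h _
        exact (by exact eo (by abel_nf <;> simp only [ch2, ch3, ch4, ch5, ch6, add_zero, zero_add]))
      · intro h hh
        rw [mem_filter] at hh
        have := X.Kin_iff hh0 hh.2 hK
        rw [add_comm h0 h] at this
        simp only [this]
    · have h1 : ∀ h ∈ univ.filter (fun h => C S p h), (if Kin S p y h c ∧ L c then 1 else 0) = 0 := by
        intro h hh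
        rw [mem_filter] at hh
        rw [if_neg]
        rintro ⟨h1, -⟩
        exact hG ⟨h, hh.2, h1⟩
      rw [sum_congr rfl h1]
      simp only [hG, and_false, false_and, if_false, sum_const_zero]
  · simp only [hL, and_false, if_false, sum_const_zero]

/-- the coset principle -/
theorem coset [Finite V] (y x : V) (L : V → Prop) (hL0 : L 0)
    (hL : ∀ a b, L a → L b → L (a + b))
    (h : ∀ h, C S p h → ∃ c, Kin S p y h c ∧ L (c + x)) :
    ∃ c, Pin S p y p c ∧ L (c + x) := by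
  classical
  have := Fintype.ofFinite V
  by_contra hno
  push Not at hno
  have e1 := X.dcount y (fun c => L (c + x))
  have e2 := X.dcount y L
  have e3 : ∑ h ∈ univ.filter (fun h => C S p h),
      (univ.filter (fun c => Kin S p y h c ∧ L (c + x))).card =
      ∑ h ∈ univ.filter (fun h => C S p h), (univ.filter (fun c => Kin S p y h c ∧ L c)).card := by
    apply sum_congr rfl
    intro k hk
    rw [mem_filter] at hk
    exact coset_eq (fun c => Kin S p y k c) L (fun a b => Kin.add) hL x (h k hk.2)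
  have e4 : ∑ f ∈ univ.filter (fun h => C S p h),
      (univ.filter (fun c => (Pin S p y f c ∧ Gin S p y c) ∧ L (c + x))).card <
      ∑ f ∈ univ.filter (fun h => C S p h),
        (univ.filter (fun c => (Pin S p y f c ∧ Gin S p y c) ∧ L c)).card := by
    apply sum_lt_sum
    · intro f _
      have := coset_le (fun c => Pin S p y f c ∧ Gin S p y c) L
        (fun a b ha hb => ⟨ha.1.add hb.1, X.Gin_add ha.2 hb.2⟩) hL x
      calc _ = _ := by congr
        _ ≤ _ := this
        _ = _ := by congr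
    · refine ⟨p, by rw [mem_filter]; exact ⟨mem_univ _, X.pp⟩, ?_⟩
      have : (univ.filter (fun c => (Pin S p y p c ∧ Gin S p y c) ∧ L (c + x))) = ∅ := by
        rw [filter_eq_empty_iff]
        rintro c - ⟨⟨h1, -⟩, h2⟩
        exact hno c h1 h2
      rw [this, card_empty, card_pos]
      refine ⟨0, ?_⟩
      rw [mem_filter]
      exact ⟨mem_univ _, ⟨X.Pin_zero, 0, C.zero p, Kin.of_E (C.zero p)⟩, hL0⟩
  rw [← e1, ← e2, e3] at e4
  exact lt_irrefl _ e4

end count

/-- (GP) -/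
theorem gp [Finite V] {u v x k : V} (hk : C S p k) (e : S.q v x = S.q k u) :
    ∃ t, Pin S p (u + v) p t ∧ S.q v t = S.q v x := by
  obtain ⟨c, h1, h2⟩ := X.coset (u + v) x (fun c => C S v c) (C.zero v)
    (fun a b ha hb => C.add ha hb) (by
      intro h hh
      have e1 : S.q v x = S.q (u + h) k := by
        rw [e, S.symm (u + h), X.shq hk hh]
      obtain ⟨t, a1, a2, a3⟩ := link e1
      refine ⟨t, ⟨0, C.zero p, ?_⟩, a1.of_eq rfl (by exact eo (by abel_nf <;> simp only [ch2, ch3, ch4, ch5, ch6, add_zero, zero_add]))⟩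
      exact a3.of_eq (by exact eo (by abel_nf <;> simp only [ch2, ch3, ch4, ch5, ch6, add_zero, zero_add])) (by exact eo (by abel_nf <;> simp only [ch2, ch3, ch4, ch5, ch6, add_zero, zero_add])))
  exact ⟨c, h1, q_eq h2⟩

theorem Pin_shift {y h f c : V} (hh : C S p h) (h1 : Pin S p (y + h) f c) : Pin S p y f c := by
  obtain ⟨k, hk, e⟩ := h1
  exact ⟨k, hk, by rw [e, X.shq hk hh]⟩

/-- (LB) -/
theorem lb [Finite V] {u v x k : V} (hv : C S p v) (hk : C S p k) (e : S.q v x = S.q k u) :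
    ∃ t, Pin S p u p t ∧ S.q v t = S.q v x := by
  obtain ⟨t, h1, h2⟩ := X.gp hk e
  exact ⟨t, X.Pin_shift hv h1, h2⟩

/-- (J) -/
theorem J {y θ j : V} (hj : C S p j) (e : S.q p θ = S.q j y) :
    C S (j + p) θ ∧ C S j (y + θ) := by
  obtain ⟨t, h1, h2, h3⟩ := link e
  have a1 : C S j (θ + t) := X.comm _ _ hj h1
  refine ⟨?_, (h2.add a1).of_eq rfl (by exact eo (by abel_nf <;> simp only [ch2, ch3, ch4, ch5, ch6, add_zero, zero_add]))⟩
  have a2 : C S (j + p) (θ + t) := a1.add' (X.comm _ _ X.pp h1)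
  exact (a2.add (h3.of_eq (add_comm _ _) rfl)).of_eq rfl (by exact eo (by abel_nf <;> simp only [ch2, ch3, ch4, ch5, ch6, add_zero, zero_add]))

theorem J' {y θ j : V} (h1 : C S (j + p) θ) (h2 : C S j (y + θ)) : S.q p θ = S.q j y := by
  rw [q_eq' (h1.of_eq (add_comm _ _) rfl), q_eq h2]

/-- `X_y ⊆ X_θ` for `θ ∈ Θ_y` -/
theorem mono {y θ h : V} (hθ : Pin S p y p θ) (hh : C S p h) (hy : C S h y) : C S h θ := by
  obtain ⟨j, hj, e⟩ := hθ
  obtain ⟨a1, -⟩ := X.J hj e
  have e2 : S.q p θ = S.q (j + h) y := by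
    rw [e]
    exact q_eq' (hy.of_eq (by exact eo (by abel_nf <;> simp only [ch2, ch3, ch4, ch5, ch6, add_zero, zero_add])) rfl)
  obtain ⟨a2, -⟩ := X.J (hj.add hh) e2
  exact (a1.add' a2).of_eq (by exact eo (by abel_nf <;> simp only [ch2, ch3, ch4, ch5, ch6, add_zero, zero_add])) rfl

/-! ### orthogonal elements -/

end Cm

variable (S) in
/-- `X_z + X_s = V_p` -/
def Orth (p z s : V) : Prop := ∃ e, C S p e ∧ C S (e + p) z ∧ C S e s

theorem Orth.symm (he : S.e = 0) {p z s : V} (h : Orth S p z s) : Orth S p s z := by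
  obtain ⟨e, h1, h2, h3⟩ := h
  exact ⟨e + p, h1.add (C.self he p), h3.of_eq (by exact eo (by abel_nf <;> simp only [ch2, ch3, ch4, ch5, ch6, add_zero, zero_add])) rfl, h2⟩

namespace Cm

variable {p : V} (X : Cm S p)
include X

theorem orth_of_Th {y θ : V} (hθ : Pin S p y p θ) : Orth S p θ (y + θ) := by
  obtain ⟨j, hj, e⟩ := hθ
  obtain ⟨a1, a2⟩ := X.J hj e
  exact ⟨j, hj, a1, a2⟩

/-- (X4), first part -/
theorem meet [Finite V] {z s h h' : V} (ho : Orth S p z s) (hh : C S p h) (hh' : C S p h')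
    (e : S.q h z = S.q h' s) : C S h z ∧ C S h' s := by
  obtain ⟨e0, he0, h1, h2⟩ := ho
  obtain ⟨t, h3, h4⟩ := X.lb hh' hh e.symm
  have h5 : C S (e0 + p) t := X.mono h3 (he0.add X.pp) h1
  have e1 : S.q (h' + e0 + p) t = S.q h' t := q_eq' (h5.of_eq (by exact eo (by abel_nf <;> simp only [ch2, ch3, ch4, ch5, ch6, add_zero, zero_add])) rfl)
  have e2 : S.q (h' + e0) s = S.q h' s := q_eq' (h2.of_eq (by exact eo (by abel_nf <;> simp only [ch2, ch3, ch4, ch5, ch6, add_zero, zero_add])) rfl)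
  obtain ⟨r, a1, a2, a3⟩ := link (e1.trans (h4.trans e2.symm))
  have a4 : C S p r := a3.of_eq (by exact eo (by abel_nf <;> simp only [ch2, ch3, ch4, ch5, ch6, add_zero, zero_add])) rfl
  have a5 : C S (h' + e0) r := X.comm _ _ (hh'.add he0) a4
  have a6 : C S (h' + e0) s := (a2.add a5).of_eq rfl (by exact eo (by abel_nf <;> simp only [ch2, ch3, ch4, ch5, ch6, add_zero, zero_add]))
  have a7 : C S h' s := (a6.add' h2).of_eq (by exact eo (by abel_nf <;> simp only [ch2, ch3, ch4, ch5, ch6, add_zero, zero_add])) rfl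
  refine ⟨?_, a7⟩
  show S.q h z = S.z
  rw [e]
  exact a7

/-- `X_(z+s) = X_z ∩ X_s` -/
theorem split [Finite V] {z s h : V} (ho : Orth S p z s) (hh : C S p h) (hc : C S h (z + s)) :
    C S h z ∧ C S h s :=
  X.meet ho hh hh (q_eq hc)

/-- common shift -/
theorem shift {z s : V} (ho : Orth S p z s) : ∃ h, C S p h ∧ C S (z + h) (s + h) := by
  obtain ⟨v, hv, hz, hs⟩ := ho
  have hv' : C S p (v + p) := hv.add X.pp
  have e1 : S.q (p + z + s) (v + p) = S.q s (v + p) := by
    apply q_eq'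
    exact (hv'.add' hz.symm).of_eq (by exact eo (by abel_nf <;> simp only [ch2, ch3, ch4, ch5, ch6, add_zero, zero_add])) rfl
  have e2 : S.q s (v + p) = S.q p s := by
    rw [S.symm s]
    exact q_eq' (hs.of_eq (by exact eo (by abel_nf <;> simp only [ch2, ch3, ch4, ch5, ch6, add_zero, zero_add])) rfl)
  obtain ⟨t, h1, h2, h3⟩ := link (e1.trans e2)
  refine ⟨s + t, h2, ?_⟩
  have h4 : C S (z + s) t := h3.of_eq (by exact eo (by abel_nf <;> simp only [ch2, ch3, ch4, ch5, ch6, add_zero, zero_add])) rfl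
  exact (h4.add' (X.self t)).of_eq (by exact eo (by abel_nf <;> simp only [ch2, ch3, ch4, ch5, ch6, add_zero, zero_add])) (by exact eo (by abel_nf <;> simp only [ch2, ch3, ch4, ch5, ch6, add_zero, zero_add]))

/-- (X4), `X_z + X_s = V_p` -/
theorem sum [Finite V] {z s g : V} (ho : Orth S p z s) (hg : C S p g) :
    ∃ a b, C S p a ∧ C S p b ∧ C S a z ∧ C S b s ∧ g = a + b := by
  obtain ⟨v, hv, hz, hs⟩ := id ho
  have hvg : C S v g := X.comm _ _ hv hg
  obtain ⟨h0, hh0, c0⟩ := X.shift ho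
  obtain ⟨hg', hhg, cg⟩ := X.shift (z := z) (s := s + g) ⟨v, hv, hz, hs.add hvg⟩
  have hk : C S p (h0 + g + hg') := (hh0.add hg).add hhg
  have r0 : C S (z + s) (s + h0) := (c0.add' (X.self (s + h0))).of_eq (by exact eo (by abel_nf <;> simp only [ch2, ch3, ch4, ch5, ch6, add_zero, zero_add])) (by exact eo (by abel_nf <;> simp only [ch2, ch3, ch4, ch5, ch6, add_zero, zero_add]))
  have rg : C S (z + s + g) (s + g + hg') :=
    (cg.add' (X.self (s + g + hg'))).of_eq (by exact eo (by abel_nf <;> simp only [ch2, ch3, ch4, ch5, ch6, add_zero, zero_add])) (by exact eo (by abel_nf <;> simp only [ch2, ch3, ch4, ch5, ch6, add_zero, zero_add]))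
  have e1 : S.q (z + s) (s + g + hg') = S.q g (s + g + hg') := q_eq' rg
  have e2 : S.q g (s + g + hg') = S.q g s := by
    apply q_eq
    exact ((X.self g).add (X.comm _ _ hg hhg)).of_eq rfl (by exact eo (by abel_nf <;> simp only [ch2, ch3, ch4, ch5, ch6, add_zero, zero_add]))
  have e3 : S.q (z + s) (h0 + g + hg') = S.q (z + s) (s + g + hg') := by
    apply q_eq
    exact r0.of_eq rfl (by exact eo (by abel_nf <;> simp only [ch2, ch3, ch4, ch5, ch6, add_zero, zero_add]))
  have e4 : S.q g s = S.q (h0 + g + hg') (z + s) := by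
    rw [S.symm (h0 + g + hg'), e3, e1, e2]
  have e5 := addq2 e4
  have e6 : S.q (g + (h0 + g + hg')) s = S.q (h0 + g + hg') z := by
    rw [e5]
    congr 1
    exact eo (by abel_nf <;> simp only [ch2, ch3, ch4, ch5, ch6, add_zero, zero_add])
  obtain ⟨m1, m2⟩ := X.meet ho hk (hg.add hk) e6.symm
  exact ⟨h0 + g + hg', g + (h0 + g + hg'), hk, hg.add hk, m1, m2, by exact eo (by abel_nf <;> simp only [ch2, ch3, ch4, ch5, ch6, add_zero, zero_add])⟩

/-- orthogonality from smaller `X` -/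
theorem orth_mono {z s z' s' : V} (ho : Orth S p z s)
    (hz : ∀ h, C S p h → C S h z → C S h z') (hs : ∀ h, C S p h → C S h s → C S h s') :
    Orth S p z' s' := by
  obtain ⟨e, h1, h2, h3⟩ := ho
  exact ⟨e, h1, hz _ (h1.add X.pp) h2, hs _ h1 h3⟩

end Cm

variable (S) in
/-- atoms -/
def Atom (p y : V) : Prop := ¬ C S p y ∧ ∀ θ, Pin S p y p θ → C S p θ ∨ C S p (y + θ)

namespace Cm

variable {p : V} (X : Cm S p)
include X

theorem Pin_shift' {y h f c : V} (hh : C S p h) (h1 : Pin S p y f c) : Pin S p (y + h) f c := by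
  apply X.Pin_shift hh
  obtain ⟨k, hk, e⟩ := h1
  exact ⟨k, hk, by rw [e]; congr 1; exact eo (by abel_nf <;> simp only [ch2, ch3, ch4, ch5, ch6, add_zero, zero_add])⟩

theorem Atom_shift {y h : V} (hh : C S p h) (ha : Atom S p y) : Atom S p (y + h) := by
  refine ⟨fun h1 => ha.1 ((h1.add hh).of_eq rfl (by exact eo (by abel_nf <;> simp only [ch2, ch3, ch4, ch5, ch6, add_zero, zero_add]))), fun θ hθ => ?_⟩
  rcases ha.2 θ (X.Pin_shift hh hθ) with h1 | h1
  · exact Or.inl h1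
  · exact Or.inr ((h1.add hh).of_eq rfl (by exact eo (by abel_nf <;> simp only [ch2, ch3, ch4, ch5, ch6, add_zero, zero_add])))

/-- (AFF) for atoms -/
theorem aff [Finite V] {y g e x : V} (ha : Atom S p y) (hg : C S p g) (he : C S p e)
    (h : S.q e x = S.q g y) (hn : ¬ C S g y) : C S (e + g) y := by
  obtain ⟨t, h1, h2⟩ := X.lb he hg h
  rcases ha.2 t h1 with h3 | h3
  · exfalso
    apply hn
    have : S.q e t = S.z := X.comm _ _ he h3
    show S.q g y = S.z
    rw [← h, ← h2, this]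
  · have e1 : S.q e y = S.q e t := q_eq (X.comm _ _ he h3)
    apply q_eq'_iff.1
    rw [e1, h2, h]

/-- (LAM) -/
theorem lam [Finite V] {x y p1 p2 : V} (hx : Atom S p x) (hy : Atom S p y) (h1 : C S p p1)
    (h2 : C S p p2) (h1x : C S p1 x) (h1y : ¬ C S p1 y) (h2y : C S p2 y) (h2x : ¬ C S p2 x) :
    Orth S p x y := by
  have e1 : S.q p1 (x + y) = S.q p1 y := q_eq (h1x.of_eq rfl (by exact eo (by abel_nf <;> simp only [ch2, ch3, ch4, ch5, ch6, add_zero, zero_add])))
  have e2 : S.q (p1 + p2) y = S.q p1 y := q_eq' (h2y.of_eq (by exact eo (by abel_nf <;> simp only [ch2, ch3, ch4, ch5, ch6, add_zero, zero_add])) rfl)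
  obtain ⟨θ, a1, a2⟩ := X.lb (h1.add h2) h1 (e2.trans e1.symm)
  have e3 : S.q (p1 + p2) θ = S.q p1 (x + y) := a2.trans (e2.trans e1.symm)
  have e4 : S.q p2 θ = S.q p1 (x + y + θ) := by
    have := addq2 e3
    rw [show p1 + p2 + p1 = p2 by exact eo (by abel_nf <;> simp only [ch2, ch3, ch4, ch5, ch6, add_zero, zero_add]), show θ + (x + y) = x + y + θ by exact eo (by abel_nf <;> simp only [ch2, ch3, ch4, ch5, ch6, add_zero, zero_add])] at this
    exact this
  have ho := X.orth_of_Th a1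
  obtain ⟨b1, b2⟩ := X.meet ho h2 h1 e4
  apply Orth.symm X.he
  apply X.orth_mono ho
  · intro h hh hc
    have e5 : S.q (p1 + h) θ = S.q p1 y := by
      rw [q_eq' (show C S (p1 + h + p1) θ from hc.of_eq (by exact eo (by abel_nf <;> simp only [ch2, ch3, ch4, ch5, ch6, add_zero, zero_add])) rfl), ← e1]
      exact q_eq (b2.of_eq rfl (by exact eo (by abel_nf <;> simp only [ch2, ch3, ch4, ch5, ch6, add_zero, zero_add])))
    exact (X.aff hy h1 (h1.add hh) e5 h1y).of_eq (by exact eo (by abel_nf <;> simp only [ch2, ch3, ch4, ch5, ch6, add_zero, zero_add])) rfl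
  · intro h hh hc
    have e6 : S.q p2 (x + y) = S.q p2 x := q_eq (h2y.of_eq rfl (by exact eo (by abel_nf <;> simp only [ch2, ch3, ch4, ch5, ch6, add_zero, zero_add])))
    have e5 : S.q (p2 + h) (x + y + θ) = S.q p2 x := by
      rw [q_eq' (show C S (p2 + h + p2) (x + y + θ) from hc.of_eq (by exact eo (by abel_nf <;> simp only [ch2, ch3, ch4, ch5, ch6, add_zero, zero_add])) rfl), ← e6]
      exact q_eq (b1.of_eq rfl (by exact eo (by abel_nf <;> simp only [ch2, ch3, ch4, ch5, ch6, add_zero, zero_add])))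
    exact (X.aff hx h2 (h2.add hh) e5 h2x).of_eq (by exact eo (by abel_nf <;> simp only [ch2, ch3, ch4, ch5, ch6, add_zero, zero_add])) rfl

/-- (IND) for commuting lifts -/
theorem ind3' [Finite V] {y1 y2 y3 : V} (ha : Atom S p y1) (o13 : Orth S p y1 y3)
    (o12 : Orth S p y1 y2) (o23 : Orth S p y2 y3) (c12 : C S y1 y2) (c13 : C S y1 y3)
    (c23 : C S y2 y3) : Orth S p y2 (y1 + y3) ∨ Orth S p y3 (y1 + y2) := by
  obtain ⟨a, b, h1, h2, h3, h4, h5⟩ := X.sum o23 X.pp
  have hz2 : C S (y1 + y2 + y3) y2 := (c12.add' (X.self y2)).add' c23.symm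
  have hz3 : C S (y1 + y2 + y3) y3 := (c13.add' c23).add' (X.self y3)
  have e1 : S.q (y1 + y2 + y3 + p) y2 = S.q p y2 := q_eq' (hz2.of_eq (by exact eo (by abel_nf <;> simp only [ch2, ch3, ch4, ch5, ch6, add_zero, zero_add])) rfl)
  have e3 : S.q (y1 + y2 + y3 + p) y3 = S.q p y3 := q_eq' (hz3.of_eq (by exact eo (by abel_nf <;> simp only [ch2, ch3, ch4, ch5, ch6, add_zero, zero_add])) rfl)
  have e2 : S.q p y2 = S.q b (y2 + y3) := by
    rw [q_eq' (show C S (p + b) y2 from h3.of_eq (by rw [h5]; exact eo (by abel_nf <;> simp only [ch2, ch3, ch4, ch5, ch6, add_zero, zero_add])) rfl)]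
    exact q_eq (h4.of_eq rfl (by exact eo (by abel_nf <;> simp only [ch2, ch3, ch4, ch5, ch6, add_zero, zero_add])))
  obtain ⟨t, b1, b2⟩ := X.gp h2 (e1.trans e2)
  have b3 := (X.Atom_shift X.pp ha).2 t
    (by rwa [show y2 + y3 + (y1 + y2 + y3 + p) = y1 + p by exact eo (by abel_nf <;> simp only [ch2, ch3, ch4, ch5, ch6, add_zero, zero_add])] at b1)
  have key : Pin S p (y1 + y2 + y3) p y2 ∨ Pin S p (y1 + y2 + y3) p y3 := by
    rcases b3 with b3 | b3
    · left
      refine ⟨t, b3, ?_⟩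
      rw [← e1, ← b2, S.symm, X.shq b3 X.pp]
    · right
      have hk : C S p (y1 + t) := (b3.add X.pp).of_eq rfl (by exact eo (by abel_nf <;> simp only [ch2, ch3, ch4, ch5, ch6, add_zero, zero_add]))
      have c1 : C S (y1 + y2 + y3 + p) (t + y2) := q_eq_iff.1 b2
      have c2 : C S (y1 + y2 + y3 + p) (t + y2 + (y1 + y2 + y3 + p)) := c1.add (X.self _)
      have e4 : S.q (y1 + y2 + y3 + p) y3 = S.q (y1 + y2 + y3 + p) (y1 + t + p) :=
        q_eq (c2.of_eq rfl (by exact eo (by abel_nf <;> simp only [ch2, ch3, ch4, ch5, ch6, add_zero, zero_add])))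
      refine ⟨y1 + t + p, hk.add X.pp, ?_⟩
      rw [← e3, e4, S.symm, X.shq (hk.add X.pp) X.pp]
  rcases key with h | h
  · left
    have := X.orth_of_Th h
    rwa [show y1 + y2 + y3 + y2 = y1 + y3 by exact eo (by abel_nf <;> simp only [ch2, ch3, ch4, ch5, ch6, add_zero, zero_add])] at this
  · right
    have := X.orth_of_Th h
    rwa [show y1 + y2 + y3 + y3 = y1 + y2 by exact eo (by abel_nf <;> simp only [ch2, ch3, ch4, ch5, ch6, add_zero, zero_add])] at this

theorem Orth_shift {z s h k : V} (hh : C S p h) (hk : C S p k) (ho : Orth S p z s) :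
    Orth S p (z + h) (s + k) := by
  obtain ⟨e, h1, h2, h3⟩ := ho
  exact ⟨e, h1, h2.add (X.comm _ _ (h1.add X.pp) hh), h3.add (X.comm _ _ h1 hk)⟩

theorem fin3 [Finite V] {y1 y2 y3 : V} (o13 : Orth S p y1 y3) (o : Orth S p y2 (y1 + y3)) :
    ∃ e, C S p e ∧ C S (e + p) y1 ∧ C S e y2 ∧ C S e y3 := by
  obtain ⟨a, c, h1, h2, h3, h4, h5⟩ := X.sum o13 X.pp
  obtain ⟨b, d, k1, k2, k3, k4, k5⟩ := X.sum o h2
  obtain ⟨m1, m2⟩ := X.split o13 k2 k4
  refine ⟨b, k1, ?_, k3, ?_⟩
  · refine (h3.add' m1).of_eq ?_ rfl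
    rw [h5, k5]; exact eo (by abel_nf <;> simp only [ch2, ch3, ch4, ch5, ch6, add_zero, zero_add])
  · refine (h4.add' m2).of_eq ?_ rfl
    rw [k5]; exact eo (by abel_nf <;> simp only [ch2, ch3, ch4, ch5, ch6, add_zero, zero_add])

/-- (IND) for three pairwise orthogonal elements, the first one an atom -/
theorem ind3 [Finite V] {y1 y2 y3 : V} (ha : Atom S p y1) (o12 : Orth S p y1 y2)
    (o13 : Orth S p y1 y3) (o23 : Orth S p y2 y3) :
    ∃ e, C S p e ∧ C S (e + p) y1 ∧ C S e y2 ∧ C S e y3 := by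
  obtain ⟨h12, k1, k2⟩ := X.shift o12
  obtain ⟨h13, k3, k4⟩ := X.shift o13
  obtain ⟨h23, k5, k6⟩ := X.shift o23
  -- `f1 = h12 + a2 = h13 + a3`
  obtain ⟨a2, a3, m1, m2, m3, m4, m5⟩ := X.sum o23 (k1.add k3)
  obtain ⟨b1, b3, n1, n2, n3, n4, n5⟩ := X.sum o13 (k1.add k5)
  obtain ⟨d1, d2, l1, l2, l3, l4, l5⟩ := X.sum o12 (k3.add k5)
  -- f1 = h12 + a2, f_2 = h12 + b1, f3 = h13 + d1
  have g1 : C S p (h12 + a2) := k1.add m1
  have g2 : C S p (h12 + b1) := k1.add n1
  have g3 : C S p (h13 + d1) := k3.add l1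
  have q1 : h12 + a2 = h13 + a3 := by
    have : h12 + a2 + (h13 + a3) = (h12 + h13) + (a2 + a3) := by abel
    apply eo
    rw [this, m5]; exact ZModModule.add_self _
  have q2 : h12 + b1 = h23 + b3 := by
    have : h12 + b1 + (h23 + b3) = (h12 + h23) + (b1 + b3) := by abel
    apply eo
    rw [this, n5]; exact ZModModule.add_self _
  have q3 : h13 + d1 = h23 + d2 := by
    have : h13 + d1 + (h23 + d2) = (h13 + h23) + (d1 + d2) := by abel
    apply eo
    rw [this, l5]; exact ZModModule.add_self _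
  have stab : ∀ y w h a b, C S p h → C S (y + h) (w + h) → C S p a → C S p b → C S a w → C S b y →
      C S (y + (h + a)) (w + (h + b)) := by
    intro y w h a b hh h0 ha hb haw hby
    have u1 : C S (y + h) b := hby.symm.add' (X.comm _ _ hh hb)
    have u2 : C S (y + h) (w + h + b) := h0.add u1
    have u3 : C S a (w + h + b) := (haw.add (X.comm _ _ ha hh)).add (X.comm _ _ ha hb)
    exact (u2.add' u3).of_eq (by exact eo (by abel_nf <;> simp only [ch2, ch3, ch4, ch5, ch6, add_zero, zero_add])) (by exact eo (by abel_nf <;> simp only [ch2, ch3, ch4, ch5, ch6, add_zero, zero_add]))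
  have c12 : C S (y1 + (h12 + a2)) (y2 + (h12 + b1)) := stab _ _ _ _ _ k1 k2 m1 n1 m3 n3
  have c13 : C S (y1 + (h12 + a2)) (y3 + (h13 + d1)) := by
    rw [q1]
    exact stab _ _ _ _ _ k3 k4 m2 l1 m4 l3
  have c23 : C S (y2 + (h12 + b1)) (y3 + (h13 + d1)) := by
    rw [q2, q3]
    exact stab _ _ _ _ _ k5 k6 n2 l2 n4 l4
  have key := X.ind3' (X.Atom_shift g1 ha) (X.Orth_shift g1 g3 o13) (X.Orth_shift g1 g2 o12)
    (X.Orth_shift g2 g3 o23) c12 c13 c23
  have unsh : ∀ e h y, C S p e → C S p h → C S e (y + h) → C S e y := by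
    intro e h y he hh hc
    exact (hc.add (X.comm _ _ he hh)).of_eq rfl (by exact eo (by abel_nf <;> simp only [ch2, ch3, ch4, ch5, ch6, add_zero, zero_add]))
  rcases key with ⟨e, r1, r2, r3⟩ | ⟨e, r1, r2, r3⟩
  · obtain ⟨s1, s2⟩ := X.split (X.Orth_shift g1 g3 o13) r1 r3
    exact X.fin3 o13 ⟨e, r1, unsh _ _ _ (r1.add X.pp) g2 r2,
      (unsh _ _ _ r1 g1 s1).add (unsh _ _ _ r1 g3 s2)⟩
  · obtain ⟨s1, s2⟩ := X.split (X.Orth_shift g1 g2 o12) r1 r3
    obtain ⟨x, w1, w2, w3, w4⟩ := X.fin3 o12 ⟨e, r1, unsh _ _ _ (r1.add X.pp) g3 r2,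
      (unsh _ _ _ r1 g1 s1).add (unsh _ _ _ r1 g2 s2)⟩
    exact ⟨x, w1, w2, w4, w3⟩

end Cm

end Pool.Agent.ETCF
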