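import Pool.Agent.ETCF.Loc

/-!
# Commutative value groups: the end of the proof (helper50)
-/

set_option autoImplicit false
set_option linter.unnecessarySeqFocus false
set_option linter.unusedVariables false
set_option linter.unusedSimpArgs false
set_option linter.unusedSectionVars false
set_option linter.unusedVariables false

namespace Pool.Agent.ETCF

open Pool.Agent.Helper58.PLine (QData)
open Pool.Agent.ETCP

/-! ### counting -/

section part
variable {V : Type} [AddCommGroup V] [Module (ZMod 2) V]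

/-- a subspace from a predicate closed under addition -/
def mkSub (A : V → Prop) (h0 : A 0) (hadd : ∀ a b, A a → A b → A (a + b)) :
    Submodule (ZMod 2) V where
  carrier := {x | A x}
  add_mem' := fun {a b} ha hb => hadd a b ha hb
  zero_mem' := h0
  smul_mem' := by
    intro c v hv
    rcases Pool.Agent.Helper58.PLine.zm c with rfl | rfl
    · rw [zero_smul]; exact h0
    · rw [one_smul]; exact hv

theorem mem_mkSub {A : V → Prop} {h0 : A 0} {hadd : ∀ a b, A a → A b → A (a + b)} {x : V} :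
    x ∈ mkSub A h0 hadd ↔ A x := Iff.rfl

theorem two_dvd [Finite V] {A B : Submodule (ZMod 2) V} (h : A < B) :
    2 * Nat.card A ∣ Nat.card B := by
  have h1 : Nat.card A = 2 ^ Module.finrank (ZMod 2) A := by
    have := Module.natCard_eq_pow_finrank (K := ZMod 2) (V := A)
    rwa [Nat.card_zmod] at this
  have h2 : Nat.card B = 2 ^ Module.finrank (ZMod 2) B := by
    have := Module.natCard_eq_pow_finrank (K := ZMod 2) (V := B)
    rwa [Nat.card_zmod] at this
  have h3 := Submodule.finrank_lt_finrank_of_lt h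
  rw [h1, h2, ← pow_succ']
  exact pow_dvd_pow 2 h3

open Finset Classical in
theorem card_filter_sub [Fintype V] (A : Submodule (ZMod 2) V) :
    (univ.filter (fun c => c ∈ A)).card = Nat.card A := by
  rw [Nat.card_eq_fintype_card, ← Fintype.card_subtype]

open Finset Classical in
theorem card_diff [Fintype V] {A B : Submodule (ZMod 2) V} (h : A ≤ B) :
    Nat.card B = Nat.card A + (univ.filter (fun c => c ∈ B ∧ c ∉ A)).card := by
  rw [← card_filter_sub, ← card_filter_sub, ← card_union_of_disjoint]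
  · congr 1
    ext c
    simp only [mem_filter, mem_univ, true_and, mem_union]
    constructor
    · intro hc
      by_cases h1 : c ∈ A
      · exact Or.inl h1
      · exact Or.inr ⟨hc, h1⟩
    · rintro (h1 | h1)
      · exact h h1
      · exact h1.1
  · rw [disjoint_left]
    intro c h1 h2
    rw [mem_filter] at h1 h2
    exact h2.2.2 h1.2

open Finset Classical in
/-- a partition of `M - E'` into an even number of sets `K h - E'` has an empty member -/
theorem partition [Finite V] (E' M : Submodule (ZMod 2) V) (K : V → Submodule (ZMod 2) V)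
    (F : Finset V) (hF : Even F.card) (hEM : E' < M) (hK : ∀ h ∈ F, E' ≤ K h)
    (hpart : ∀ c ∈ M, c ∉ E' → ∃ h ∈ F, c ∈ K h ∧ ∀ h' ∈ F, c ∈ K h' → h' = h) :
    ∃ h ∈ F, K h ⊓ M ≤ E' := by
  have := Fintype.ofFinite V
  by_contra hno
  push Not at hno
  have hlt : ∀ h ∈ F, E' < K h ⊓ M := fun h hh =>
    lt_of_le_of_ne (le_inf (hK h hh) hEM.le) (fun e => hno h hh (e ▸ le_refl _))
  -- double count
  have e1 : ∑ h ∈ F, (univ.filter (fun c => c ∈ K h ⊓ M ∧ c ∉ E')).card =
      (univ.filter (fun c => c ∈ M ∧ c ∉ E')).card := by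
    simp only [card_filter]
    rw [sum_comm]
    apply sum_congr rfl
    intro c _
    by_cases hc : c ∈ M ∧ c ∉ E'
    · rw [if_pos hc]
      obtain ⟨h, hh, h1, h2⟩ := hpart c hc.1 hc.2
      rw [sum_eq_single h]
      · rw [if_pos ⟨⟨h1, hc.1⟩, hc.2⟩]
      · intro h' hh' hne
        rw [if_neg]
        rintro ⟨⟨h3, -⟩, -⟩
        exact hne (h2 h' hh' h3)
      · intro h3; exact absurd hh h3
    · rw [if_neg hc]
      apply sum_eq_zero
      intro h _
      rw [if_neg]
      rintro ⟨⟨-, h1⟩, h2⟩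
      exact hc ⟨h1, h2⟩
  have e2 : ∀ h ∈ F, ∃ m, (univ.filter (fun c => c ∈ K h ⊓ M ∧ c ∉ E')).card + Nat.card E' =
      2 * Nat.card E' * m := by
    intro h hh
    obtain ⟨m, hm⟩ := two_dvd (hlt h hh)
    refine ⟨m, ?_⟩
    rw [← hm, card_diff (hlt h hh).le, add_comm]
  choose! m hm using e2
  have e3 : ∑ h ∈ F, ((univ.filter (fun c => c ∈ K h ⊓ M ∧ c ∉ E')).card + Nat.card E') =
      2 * Nat.card E' * ∑ h ∈ F, m h := by
    rw [mul_sum]
    exact sum_congr rfl hm
  rw [sum_add_distrib, sum_const, smul_eq_mul, e1] at e3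
  obtain ⟨a, ha⟩ := two_dvd hEM
  have e4 := card_diff hEM.le
  obtain ⟨r, hr⟩ := hF
  have hn : 0 < Nat.card E' := Nat.card_pos
  generalize Nat.card E' = n at *
  generalize (univ.filter (fun c => c ∈ M ∧ c ∉ E')).card = d at *
  generalize ∑ h ∈ F, m h = M' at *
  generalize Nat.card M = N at *
  -- `N = n + d`, `d + F n = 2 n M'`, `N = 2 n a`, `F = r + r`
  have e5 : n * (2 * a + 2 * r) = n * (2 * M' + 1) := by
    have h1 : d + (r + r) * n = 2 * n * M' := by rw [← hr]; exact e3
    have h2 : n + d = 2 * n * a := by rw [← e4]; exact ha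
    nlinarith
  have e6 := Nat.eq_of_mul_eq_mul_left hn e5
  omega

end part

variable {V Q : Type} [AddCommGroup V] [Module (ZMod 2) V] {S : QData V Q}

variable (S) in
/-- `c ∈ V_z + V_p` -/
def K0 (p z c : V) : Prop := ∃ k, C S p k ∧ C S z (c + k)

variable (S) in
/-- the situation after (LOC): all `K^f`, `f ∉ {0, p}`, lie in `K^e0` -/
structure Lc (p e0 : V) : Prop extends Cm S p where
  h1 : C S p e0
  h2 : e0 ≠ 0
  h3 : e0 ≠ p
  h4 : ∀ f w, C S p f → f ≠ 0 → f ≠ p → Kf S p f w → Kf S p e0 w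

namespace Lc

variable {p e0 : V} (X : Lc S p e0)
include X

theorem X' : Cm S p := X.toCm

theorem hsE {w : V} (h : C S p w) : Kf S p e0 w := Kf.of_C (X.comm _ _ X.h1 h)

theorem notHs {z c : V} (hz : ¬ Kf S p e0 z) (hc : Kf S p e0 c) : ¬ Kf S p e0 (z + c) := by
  intro h
  apply hz
  have := h.add hc
  rwa [show z + c + c = z by exact eo (by abel_nf <;> simp only [ch2, ch3, ch4, ch5, ch6, add_zero, zero_add])] at this

theorem notE {z : V} (hz : ¬ Kf S p e0 z) : ¬ C S p z := fun h => hz (X.hsE h)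

theorem omX {z h : V} (hz : ¬ Kf S p e0 z) (hh : C S p h) (hc : C S h z) : h = 0 := by
  by_contra h0
  by_cases hp : h = p
  · exact X.notE hz (hp ▸ hc)
  · exact hz (X.h4 h z hh h0 hp (Kf.of_C hc))

theorem hs_of_C {g s : V} (hg : C S p g) (g0 : g ≠ 0) (h : C S g s) : Kf S p e0 s := by
  by_contra hs
  exact g0 (X.omX hs hg h)

theorem omA {z θ : V} (hz : ¬ Kf S p e0 z) (hθ : Pin S p z p θ) :
    C S p θ ∨ C S p (z + θ) := by
  obtain ⟨j, hj, e⟩ := hθ
  obtain ⟨a1, a2⟩ := X.X'.J hj e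
  by_cases j0 : j = 0
  · left; exact a1.of_eq (by rw [j0, zero_add]) rfl
  by_cases jp : j = p
  · right; rw [← jp]; exact a2
  exact absurd (X.h4 j z hj j0 jp ⟨θ, a1, a2⟩) hz

theorem omF [Finite V] {z g c : V} (hz : ¬ Kf S p e0 z) (hg : C S p g) (h : Pin S p z g c) :
    C S g c ∨ C S g (c + z) := by
  obtain ⟨k, hk, e⟩ := h
  obtain ⟨t, h1, h2⟩ := X.X'.lb hg hk e
  rcases X.omA hz h1 with h3 | h3
  · left
    have : S.q g t = S.z := X.comm _ _ hg h3
    show S.q g c = S.z
    rw [← h2, this]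
  · right
    apply q_eq_iff.1
    rw [← h2]
    exact q_eq ((X.comm _ _ hg h3).of_eq rfl (by exact eo (by abel_nf <;> simp only [ch2, ch3, ch4, ch5, ch6, add_zero, zero_add])))

theorem omF1 [Finite V] {z g c : V} (hz : ¬ Kf S p e0 z) (hc : Kf S p e0 c) (hg : C S p g)
    (h : Pin S p z g c) : C S g c := by
  rcases X.omF hz hg h with h1 | h1
  · exact h1
  · have h2 : ¬ Kf S p e0 (c + z) := by
      rw [add_comm]; exact X.notHs hz hc
    rw [X.omX h2 hg h1]
    exact C.zero' c

theorem omF2 [Finite V] {z g y : V} (hz : ¬ Kf S p e0 z) (hy : ¬ Kf S p e0 y)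
    (hyz : ¬ Kf S p e0 (y + z)) (hg : C S p g) (h : Pin S p z g y) : g = 0 := by
  rcases X.omF hz hg h with h1 | h1
  · exact X.omX hy hg h1
  · exact X.omX hyz hg h1

theorem omgp [Finite V] {u v x k : V} (huv : ¬ Kf S p e0 (u + v)) (hk : C S p k)
    (e : S.q v x = S.q k u) : ∃ t, S.q v t = S.q v x ∧ (C S p t ∨ C S p (u + v + t)) := by
  obtain ⟨t, h1, h2⟩ := X.X'.gp hk e
  exact ⟨t, h2, X.omA huv h1⟩

/-- (6a) -/
theorem l6a [Finite V] {z y g s : V} (hz : ¬ Kf S p e0 z) (hy : ¬ Kf S p e0 y)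
    (hyz : ¬ Kf S p e0 (y + z)) (hk : K0 S p z y) (hg : C S p g) (g0 : g ≠ 0) (hs : C S g s) :
    K0 S p z s := by
  have hss := X.hs_of_C hg g0 hs
  obtain ⟨k, hk, c1⟩ := hk
  have hy' : ¬ Kf S p e0 (y + k) := X.notHs hy (X.hsE hk)
  have hyz' : ¬ Kf S p e0 (y + k + z) := by
    have := X.notHs hyz (X.hsE hk)
    rwa [show y + z + k = y + k + z by exact eo (by abel_nf <;> simp only [ch2, ch3, ch4, ch5, ch6, add_zero, zero_add])] at this
  have e1 : S.q (z + g) (y + k) = S.q g (y + k) := q_eq' (c1.of_eq (by exact eo (by abel_nf <;> simp only [ch2, ch3, ch4, ch5, ch6, add_zero, zero_add])) rfl)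
  have e2 : S.q g (y + k + s) = S.q g (y + k) := q_eq (hs.of_eq rfl (by exact eo (by abel_nf <;> simp only [ch2, ch3, ch4, ch5, ch6, add_zero, zero_add])))
  have huv : ¬ Kf S p e0 (y + k + s + (z + g)) := by
    have := X.notHs hyz' (hss.add (X.hsE hg))
    rwa [show y + k + z + (s + g) = y + k + s + (z + g) by exact eo (by abel_nf <;> simp only [ch2, ch3, ch4, ch5, ch6, add_zero, zero_add])] at this
  obtain ⟨t, h1, h2 | h2⟩ := X.omgp huv hg (e1.trans e2.symm)
  · exfalso
    apply g0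
    apply X.omF2 hz hy' hyz' hg
    refine ⟨t, h2, ?_⟩
    rw [← e1, ← h1, S.symm, X.X'.shq h2 hg]
  · have c2 : C S (z + g) (t + (y + k)) := q_eq_iff.1 h1
    have c3 : C S (z + g) (s + (y + k + s + (z + g) + t)) :=
      (c2.add (X.X'.self (z + g))).of_eq rfl (by exact eo (by abel_nf <;> simp only [ch2, ch3, ch4, ch5, ch6, add_zero, zero_add]))
    have c4 : C S g (s + (y + k + s + (z + g) + t)) := hs.add (X.comm _ _ hg h2)
    exact ⟨_, h2, (c3.add' c4).of_eq (by exact eo (by abel_nf <;> simp only [ch2, ch3, ch4, ch5, ch6, add_zero, zero_add])) rfl⟩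

/-- (6b) -/
theorem l6b [Finite V] {z c j θ : V} (hz : ¬ Kf S p e0 z) (hc : Kf S p e0 c)
    (hk : K0 S p z c) (hj : C S p j) (h1 : C S (j + p) θ) (h2 : C S j (c + θ)) :
    K0 S p z θ := by
  by_cases hjθ : C S j θ
  · have : C S p θ := (h1.add' hjθ).of_eq (by exact eo (by abel_nf <;> simp only [ch2, ch3, ch4, ch5, ch6, add_zero, zero_add])) rfl
    exact ⟨θ, this, (C.zero _).of_eq rfl (by exact eo (by abel_nf <;> simp only [ch2, ch3, ch4, ch5, ch6, add_zero, zero_add]))⟩
  have hθ := X.X'.ba hj X.h1 h1 h2 hc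
  obtain ⟨k, hk, c1⟩ := hk
  have hck : Kf S p e0 (c + k) := hc.add (X.hsE hk)
  have e1 : S.q (z + j) (c + k) = S.q j (c + k) := q_eq' (c1.of_eq (by exact eo (by abel_nf <;> simp only [ch2, ch3, ch4, ch5, ch6, add_zero, zero_add])) rfl)
  have e2 : S.q j (c + k) = S.q j θ :=
    q_eq ((h2.add (X.comm _ _ hj hk)).of_eq rfl (by exact eo (by abel_nf <;> simp only [ch2, ch3, ch4, ch5, ch6, add_zero, zero_add])))
  have huv : ¬ Kf S p e0 (θ + (z + j)) := by
    have := X.notHs hz (hθ.add (X.hsE hj))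
    rwa [show z + (θ + j) = θ + (z + j) by exact eo (by abel_nf <;> simp only [ch2, ch3, ch4, ch5, ch6, add_zero, zero_add])] at this
  obtain ⟨t, h3, h4 | h4⟩ := X.omgp huv hj (e1.trans e2)
  · exfalso
    apply hjθ
    have : C S j (c + k) := by
      apply X.omF1 hz hck hj
      refine ⟨t, h4, ?_⟩
      rw [← e1, ← h3, S.symm, X.X'.shq h4 hj]
    show S.q j θ = S.z
    rw [← e2]
    exact this
  · have e3 : S.q j θ = S.q (z + j) (θ + (θ + (z + j) + t)) := by
      rw [← e2, ← e1, ← h3]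
      exact q_eq ((X.X'.self (z + j)).of_eq rfl (by exact eo (by abel_nf <;> simp only [ch2, ch3, ch4, ch5, ch6, add_zero, zero_add])))
    have e4 := addq2 e3
    have e5 : S.q z θ = S.q z (θ + (z + j) + t) := by
      rw [show j + (z + j) = z by exact eo (by abel_nf <;> simp only [ch2, ch3, ch4, ch5, ch6, add_zero, zero_add]), show θ + (θ + (θ + (z + j) + t)) = θ + (z + j) + t by exact eo (by abel_nf <;> simp only [ch2, ch3, ch4, ch5, ch6, add_zero, zero_add])]
        at e4
      rw [e4]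
      exact q_eq' ((X.comm _ _ hj h4).of_eq (by exact eo (by abel_nf <;> simp only [ch2, ch3, ch4, ch5, ch6, add_zero, zero_add])) rfl)
    exact ⟨_, h4, q_eq_iff.1 e5⟩

/-- (6c) -/
theorem l6c [Finite V] {z c s e g : V} (hz : ¬ Kf S p e0 z) (hc : Kf S p e0 c)
    (hk : K0 S p z c) (hs : Kf S p e0 s) (he : C S p e) (hes : C S e s) (hec : ¬ C S e c)
    (hg : C S p g) (hgc : C S (e + g) c) : K0 S p (z + g) s := by
  obtain ⟨k, hk, c1⟩ := hk
  have hck : Kf S p e0 (c + k) := hc.add (X.hsE hk)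
  have e1 : S.q (z + g) (c + k) = S.q g (c + k) := q_eq' (c1.of_eq (by exact eo (by abel_nf <;> simp only [ch2, ch3, ch4, ch5, ch6, add_zero, zero_add])) rfl)
  have e2 : S.q g (c + k) = S.q e (c + k) :=
    q_eq' ((hgc.add (X.comm _ _ (he.add hg) hk)).of_eq (by exact eo (by abel_nf <;> simp only [ch2, ch3, ch4, ch5, ch6, add_zero, zero_add])) rfl)
  have e3 : S.q e (c + k + s) = S.q e (c + k) := q_eq (hes.of_eq rfl (by exact eo (by abel_nf <;> simp only [ch2, ch3, ch4, ch5, ch6, add_zero, zero_add])))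
  have huv : ¬ Kf S p e0 (c + k + s + (z + g)) := by
    have := X.notHs hz ((hck.add hs).add (X.hsE hg))
    rwa [show z + (c + k + s + g) = c + k + s + (z + g) by exact eo (by abel_nf <;> simp only [ch2, ch3, ch4, ch5, ch6, add_zero, zero_add])] at this
  obtain ⟨t, h3, h4 | h4⟩ := X.omgp huv he ((e1.trans e2).trans e3.symm)
  · exfalso
    apply hec
    have : C S e (c + k) := by
      apply X.omF1 hz hck he
      refine ⟨t, h4, ?_⟩
      rw [← e2, ← e1, ← h3, S.symm, X.X'.shq h4 hg]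
    exact (this.add (X.comm _ _ he hk)).of_eq rfl (by exact eo (by abel_nf <;> simp only [ch2, ch3, ch4, ch5, ch6, add_zero, zero_add]))
  · have c2 : C S (z + g) (t + (c + k)) := q_eq_iff.1 h3
    refine ⟨_, h4, ?_⟩
    exact (c2.add (X.X'.self (z + g))).of_eq rfl (by exact eo (by abel_nf <;> simp only [ch2, ch3, ch4, ch5, ch6, add_zero, zero_add]))

/-- (6c), conclusion -/
theorem l6c' [Finite V] {z c s e : V} (hz : ¬ Kf S p e0 z) (hc : Kf S p e0 c)
    (hk : K0 S p z c) (hs : Kf S p e0 s) (he : C S p e) (hes : C S e s) (hec : ¬ C S e c) :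
    (∀ h, C S p h → C S h c → C S h s) ∧ K0 S p z s := by
  have h1 : K0 S p (z + e) s := X.l6c hz hc hk hs he hes hec he ((C.zero' c).of_eq (by exact eo (by abel_nf <;> simp only [ch2, ch3, ch4, ch5, ch6, add_zero, zero_add])) rfl)
  constructor
  · intro h hh hhc
    have h2 : K0 S p (z + (e + h)) s :=
      X.l6c hz hc hk hs he hes hec (he.add hh) (hhc.of_eq (by exact eo (by abel_nf <;> simp only [ch2, ch3, ch4, ch5, ch6, add_zero, zero_add])) rfl)
    have h3 := (X.X'.Kin_iff (y := z) (c := s) he (he.add hh) h1).1 h2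
    have h4 := X.omF1 hz hs (he.add (he.add hh)) h3
    exact h4.of_eq (by exact eo (by abel_nf <;> simp only [ch2, ch3, ch4, ch5, ch6, add_zero, zero_add])) rfl
  · obtain ⟨k, hk, c1⟩ := h1
    have c2 : C S e (s + k) := hes.add (X.comm _ _ he hk)
    exact ⟨k, hk, (c1.add' c2).of_eq (by exact eo (by abel_nf <;> simp only [ch2, ch3, ch4, ch5, ch6, add_zero, zero_add])) rfl⟩

theorem rigid_of {z h : V} (hz : ¬ Kf S p e0 z) (hh : C S p h)
    (H : ∀ c, K0 S p (z + h) c → C S p c ∨ C S p (c + z)) :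
    ∀ w, C S (z + h) w → w = 0 ∨ w = z + h := by
  intro w hw
  rcases H w ⟨0, C.zero p, hw.of_eq rfl (by exact eo (by abel_nf <;> simp only [ch2, ch3, ch4, ch5, ch6, add_zero, zero_add]))⟩ with h1 | h1
  · left
    apply X.omX hz h1
    exact (hw.symm.add (X.comm _ _ h1 hh)).of_eq rfl (by exact eo (by abel_nf <;> simp only [ch2, ch3, ch4, ch5, ch6, add_zero, zero_add]))
  · right
    have hk : C S p (w + z + h) := h1.add hh
    have : w + z + h = 0 := by
      apply X.omX hz hk
      have c1 : C S (z + h) (w + (z + h)) := hw.add (X.X'.self _)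
      exact (c1.symm.add (X.comm _ _ (hk.of_eq rfl (by exact eo (by abel_nf <;> simp only [ch2, ch3, ch4, ch5, ch6, add_zero, zero_add]))) hh)).of_eq (by exact eo (by abel_nf <;> simp only [ch2, ch3, ch4, ch5, ch6, add_zero, zero_add])) (by exact eo (by abel_nf <;> simp only [ch2, ch3, ch4, ch5, ch6, add_zero, zero_add]))
    apply eo
    rw [← this]
    exact eo (by abel_nf <;> simp only [ch2, ch3, ch4, ch5, ch6, add_zero, zero_add])

end Lc

end Pool.Agent.ETCF
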