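import Pool.Agent.ETCF.Basic

/-!
# Commutative value groups: the sets `K^f = V_f + V_(f+p)` (helper50)

There is one `e0 ∉ {0, p}` in `V_p` with `K^f ⊆ K^e0` for all `f ∈ V_p`, `f ∉ {0, p}`.
-/

set_option autoImplicit false
set_option linter.unnecessarySeqFocus false
set_option linter.unusedVariables false
set_option linter.unusedSimpArgs false
set_option linter.unusedSectionVars false
set_option linter.unusedVariables false

namespace Pool.Agent.ETCF

open Pool.Agent.Helper58.PLine (QData)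
open Pool.Agent.ETCP

variable {V Q : Type} [AddCommGroup V] [Module (ZMod 2) V] {S : QData V Q}

theorem exmin {α : Type} (P : α → Prop) (f : α → ℕ) (h : ∃ a, P a) :
    ∃ a, P a ∧ ∀ b, P b → f a ≤ f b := by
  classical
  obtain ⟨a0, ha0⟩ := h
  have hex : ∃ n, ∃ a, P a ∧ f a = n := ⟨f a0, a0, ha0, rfl⟩
  obtain ⟨a, ha, hn⟩ := Nat.find_spec hex
  exact ⟨a, ha, fun b hb => by rw [hn]; exact Nat.find_min' hex ⟨b, hb, rfl⟩⟩

variable (S) in
/-- `w ∈ K^f = V_f + V_(f+p)` -/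
def Kf (p f w : V) : Prop := ∃ θ, C S (f + p) θ ∧ C S f (w + θ)

variable (S) in
/-- number of `h ∈ V_p` not commuting with `w` -/
noncomputable def rk (p w : V) : ℕ := Set.ncard {h | C S p h ∧ ¬ C S h w}

variable (S) in
/-- number of `h ∈ V_p` commuting with `w` -/
noncomputable def xc (p w : V) : ℕ := Set.ncard {h | C S p h ∧ C S h w}

theorem Kf.add {p f w w' : V} (h1 : Kf S p f w) (h2 : Kf S p f w') : Kf S p f (w + w') := by
  obtain ⟨θ, a, b⟩ := h1
  obtain ⟨θ', a', b'⟩ := h2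
  exact ⟨θ + θ', a.add a', (b.add b').of_eq rfl (by exact eo (by abel_nf <;> simp only [ch2, ch3, ch4, ch5, ch6, add_zero, zero_add]))⟩

theorem Kf.of_C {p f w : V} (h : C S f w) : Kf S p f w :=
  ⟨0, C.zero _, h.of_eq rfl (by exact eo (by abel_nf <;> simp only [ch2, ch3, ch4, ch5, ch6, add_zero, zero_add]))⟩

theorem Kf.of_C' {p f w : V} (h : C S (f + p) w) : Kf S p f w :=
  ⟨w, h, (C.zero _).of_eq rfl (by exact eo (by abel_nf <;> simp only [ch2, ch3, ch4, ch5, ch6, add_zero, zero_add]))⟩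

theorem rk_lt [Finite V] {p w θ : V} (h : ∀ g, C S p g → C S g w → C S g θ)
    (h' : ∃ g, C S p g ∧ C S g θ ∧ ¬ C S g w) : rk S p θ < rk S p w := by
  apply Set.ncard_lt_ncard _ (Set.toFinite _)
  constructor
  · rintro g ⟨h1, h2⟩
    exact ⟨h1, fun h3 => h2 (h g h1 h3)⟩
  · intro hsub
    obtain ⟨g, h1, h2, h3⟩ := h'
    exact (hsub ⟨h1, h3⟩).2 h2

theorem xc_eq [Finite V] {p w θ : V} (h : ∀ g, C S p g → C S g w → C S g θ)
    (h' : xc S p θ ≤ xc S p w) : ∀ g, C S p g → C S g θ → C S g w := by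
  have h1 : {h | C S p h ∧ C S h w} ⊆ {h | C S p h ∧ C S h θ} := fun g hg => ⟨hg.1, h g hg.1 hg.2⟩
  have h2 := Set.eq_of_subset_of_ncard_le h1 h' (Set.toFinite _)
  intro g hg hgt
  have : g ∈ {h | C S p h ∧ C S h θ} := ⟨hg, hgt⟩
  rw [← h2] at this
  exact this.2

namespace Cm

variable {p : V} (X : Cm S p)
include X

/-- (BA) -/
theorem ba [Finite V] {e f w θ : V} (he : C S p e) (hf : C S p f) (h1 : C S (e + p) θ)
    (h2 : C S e (w + θ)) (hk : Kf S p f w) : Kf S p f θ := by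
  obtain ⟨φ, h3, h4⟩ := hk
  have e1 : S.q p θ = S.q w e := by rw [X.J' h1 h2, S.symm]
  have e2 : S.q p φ = S.q w f := by rw [X.J' h3 h4, S.symm]
  have e3 : S.q p (θ + φ) = S.q (e + f) w := by rw [addq e1 e2, S.symm]
  obtain ⟨a1, a2⟩ := X.J (he.add hf) e3
  have e4 : S.q f θ = S.q (e + f + p) θ := q_eq' (h1.of_eq (by exact eo (by abel_nf <;> simp only [ch2, ch3, ch4, ch5, ch6, add_zero, zero_add])) rfl)
  have e5 : S.q (e + f + p) θ = S.q (e + f + p) φ := q_eq a1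
  have e6 : S.q (e + f + p) φ = S.q e φ := q_eq' (h3.of_eq (by exact eo (by abel_nf <;> simp only [ch2, ch3, ch4, ch5, ch6, add_zero, zero_add])) rfl)
  have e7 : S.q e φ = S.q f θ := by rw [e4, e5, e6]
  obtain ⟨ψ, b1, b2⟩ := X.lb he hf e7
  have b3 : C S (e + p) ψ := X.mono b1 (he.add X.pp) h1
  have e8 : S.q p ψ = S.q f θ := by
    rw [q_eq' (show C S (p + e) ψ from b3.of_eq (by exact eo (by abel_nf <;> simp only [ch2, ch3, ch4, ch5, ch6, add_zero, zero_add])) rfl), b2, e7]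
  obtain ⟨c1, c2⟩ := X.J hf e8
  exact ⟨ψ, c1, c2⟩

/-- (BA), both parts -/
theorem ba2 [Finite V] {e f w θ : V} (he : C S p e) (hf : C S p f) (h1 : C S (e + p) θ)
    (h2 : C S e (w + θ)) (hk : Kf S p f w) : Kf S p f θ ∧ Kf S p f (w + θ) := by
  refine ⟨X.ba he hf h1 h2 hk, X.ba (he.add X.pp) hf (h2.of_eq (by exact eo (by abel_nf <;> simp only [ch2, ch3, ch4, ch5, ch6, add_zero, zero_add])) rfl) ?_ hk⟩
  exact h1.of_eq rfl (by exact eo (by abel_nf <;> simp only [ch2, ch3, ch4, ch5, ch6, add_zero, zero_add]))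

/-- splitting of an element which is not an atom -/
theorem nonatom [Finite V] {w : V} (h0 : ¬ C S p w) (ha : ¬ Atom S p w) :
    ∃ θ e, C S p e ∧ C S (e + p) θ ∧ C S e (w + θ) ∧ rk S p θ < rk S p w ∧
      rk S p (w + θ) < rk S p w := by
  have : ∃ θ, Pin S p w p θ ∧ ¬ C S p θ ∧ ¬ C S p (w + θ) := by
    by_contra hno
    push Not at hno
    apply ha
    refine ⟨h0, fun θ hθ => ?_⟩
    by_cases h1 : C S p θ
    · exact Or.inl h1
    · exact Or.inr (hno θ hθ h1)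
  obtain ⟨θ, hθ, h1, h2⟩ := this
  have ho := X.orth_of_Th hθ
  obtain ⟨e, he, a1, a2⟩ := id ho
  have hs : ∀ g, C S p g → C S g w → C S g θ ∧ C S g (w + θ) := by
    intro g hg hc
    exact X.split ho hg (hc.of_eq rfl (by exact eo (by abel_nf <;> simp only [ch2, ch3, ch4, ch5, ch6, add_zero, zero_add])))
  refine ⟨θ, e, he, a1, a2, rk_lt (fun g hg hc => (hs g hg hc).1) ⟨e + p, he.add X.pp, a1, ?_⟩,
    rk_lt (fun g hg hc => (hs g hg hc).2) ⟨e, he, a2, ?_⟩⟩
  · intro h3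
    apply h2
    exact ((hs _ (he.add X.pp) h3).2.add' a2).of_eq (by exact eo (by abel_nf <;> simp only [ch2, ch3, ch4, ch5, ch6, add_zero, zero_add])) rfl
  · intro h3
    apply h1
    exact ((hs _ he h3).1.add' a1).of_eq (by exact eo (by abel_nf <;> simp only [ch2, ch3, ch4, ch5, ch6, add_zero, zero_add])) rfl

theorem orth_zero {b : V} : Orth S p b 0 := ⟨p, X.pp, (C.zero' b).of_eq (by exact eo (by abel_nf <;> simp only [ch2, ch3, ch4, ch5, ch6, add_zero, zero_add])) rfl, C.zero p⟩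

theorem splitb [Finite V] {b : V} (hb : Atom S p b) : ∀ n w, rk S p w = n →
    (∀ h, C S p h → C S h w → C S h b) ∨
    ∃ w1 w2, w = w1 + w2 ∧ (∀ h, C S p h → C S h w → C S h w2) ∧
      (∀ h, C S p h → C S h b → C S h w1) ∧ Orth S p b w2 := by
  intro n
  induction n using Nat.strong_induction_on with
  | _ n ih =>
  intro w hn
  by_cases hw : C S p w
  · right
    exact ⟨w, 0, by rw [add_zero], fun h _ _ => C.zero h, fun h hh _ => X.comm _ _ hh hw,
      X.orth_zero⟩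
  by_cases ha : Atom S p w
  · by_cases h1 : ∀ h, C S p h → C S h w → C S h b
    · exact Or.inl h1
    right
    by_cases h2 : ∀ h, C S p h → C S h b → C S h w
    · exact ⟨w, 0, by rw [add_zero], fun h _ _ => C.zero h, h2, X.orth_zero⟩
    push Not at h1 h2
    obtain ⟨p1, a1, a2, a3⟩ := h1
    obtain ⟨p2, b1, b2, b3⟩ := h2
    refine ⟨0, w, by rw [zero_add], fun h _ hc => hc, fun h _ _ => C.zero h, ?_⟩
    exact (X.lam ha hb a1 b1 a2 a3 b2 b3).symm X.he
  obtain ⟨θ, e, he, a1, a2, r1, r2⟩ := X.nonatom hw ha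
  have ho : Orth S p θ (w + θ) := ⟨e, he, a1, a2⟩
  have hs : ∀ g, C S p g → C S g w → C S g θ ∧ C S g (w + θ) := by
    intro g hg hc
    exact X.split ho hg (hc.of_eq rfl (by exact eo (by abel_nf <;> simp only [ch2, ch3, ch4, ch5, ch6, add_zero, zero_add])))
  rcases ih _ (hn ▸ r1) θ rfl with h1 | ⟨u1, u2, m1, m2, m3, m4⟩
  · exact Or.inl fun h hh hc => h1 h hh (hs h hh hc).1
  rcases ih _ (hn ▸ r2) (w + θ) rfl with h2 | ⟨v1, v2, n1, n2, n3, n4⟩
  · exact Or.inl fun h hh hc => h2 h hh (hs h hh hc).2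
  right
  have o2 : Orth S p u2 v2 := X.orth_mono ho m2 n2
  obtain ⟨e', k1, k2, k3, k4⟩ := X.ind3 hb m4 n4 o2
  refine ⟨u1 + v1, u2 + v2, ?_, ?_, ?_, e', k1, k2, k3.add k4⟩
  · have : w = θ + (w + θ) := by exact eo (by abel_nf <;> simp only [ch2, ch3, ch4, ch5, ch6, add_zero, zero_add])
    rw [this, n1, m1]
    abel
  · intro h hh hc
    exact (m2 h hh (hs h hh hc).1).add (n2 h hh (hs h hh hc).2)
  · intro h hh hc
    exact (m3 h hh hc).add (n3 h hh hc)

theorem good [Finite V] {e0 : V} (he0 : C S p e0)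
    (hg : ∀ b, Atom S p b → (∃ h, C S p h ∧ h ≠ 0 ∧ C S h b) → Kf S p e0 b) :
    ∀ n w f, rk S p w = n → C S p f → f ≠ 0 → f ≠ p → Kf S p f w → Kf S p e0 w := by
  intro n
  induction n using Nat.strong_induction_on with
  | _ n ih =>
  intro w f hn hf hf0 hfp hk
  by_cases hw : C S p w
  · exact Kf.of_C (X.comm _ _ he0 hw)
  by_cases ha : Atom S p w
  · apply hg w ha
    obtain ⟨θ, h1, h2⟩ := hk
    have hθ : Pin S p w p θ := ⟨f, hf, X.J' h1 h2⟩
    rcases ha.2 θ hθ with h3 | h3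
    · refine ⟨f, hf, hf0, ?_⟩
      exact (h2.add (X.comm _ _ hf h3)).of_eq rfl (by exact eo (by abel_nf <;> simp only [ch2, ch3, ch4, ch5, ch6, add_zero, zero_add]))
    · refine ⟨f + p, hf.add X.pp, fun h => hfp (eo h), ?_⟩
      exact (h1.add (X.comm _ _ (hf.add X.pp) h3)).of_eq rfl (by exact eo (by abel_nf <;> simp only [ch2, ch3, ch4, ch5, ch6, add_zero, zero_add]))
  obtain ⟨θ, e, he, a1, a2, r1, r2⟩ := X.nonatom hw ha
  obtain ⟨b1, b2⟩ := X.ba2 he hf a1 a2 hk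
  have c1 := ih _ (hn ▸ r1) θ f rfl hf hf0 hfp b1
  have c2 := ih _ (hn ▸ r2) (w + θ) f rfl hf hf0 hfp b2
  have := c1.add c2
  rwa [show θ + (w + θ) = w by exact eo (by abel_nf <;> simp only [ch2, ch3, ch4, ch5, ch6, add_zero, zero_add])] at this

/-- (LOC) -/
theorem loc [Finite V] (hq : ∃ q0, C S p q0 ∧ q0 ≠ 0 ∧ q0 ≠ p) :
    ∃ e0, C S p e0 ∧ e0 ≠ 0 ∧ e0 ≠ p ∧
      ∀ f w, C S p f → f ≠ 0 → f ≠ p → Kf S p f w → Kf S p e0 w := by
  by_cases hA : ∃ a, Atom S p a ∧ ∃ h, C S p h ∧ h ≠ 0 ∧ C S h a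
  · obtain ⟨a, ⟨ha, h0, hh0, hh00, hh0a⟩, hmin⟩ := exmin _ (xc S p) hA
    obtain ⟨w0, how0, hmin2⟩ := exmin (fun w => Orth S p a w) (xc S p) ⟨0, X.orth_zero⟩
    -- claim 1
    have cl1 : ∀ b, Atom S p b → Orth S p a b → ∀ h, C S p h → C S h w0 → C S h b := by
      intro b hb hab
      rcases X.splitb hb _ w0 rfl with h | ⟨w1, w2, e1, hs, hb1, ho⟩
      · exact h
      have o2 : Orth S p a w2 := X.orth_mono how0 (fun h _ hc => hc) hs
      obtain ⟨e', k1, k2, k3, k4⟩ := X.ind3 ha hab o2 ho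
      have hm := hmin2 (b + w2) ⟨e', k1, k2, k3.add k4⟩
      have key := xc_eq (S := S) (p := p) (w := b + w2) (θ := w0) (by
        intro g hg hc
        obtain ⟨c1, c2⟩ := X.split ho hg hc
        rw [e1]
        exact (hb1 g hg c1).add c2) hm
      intro h hh hc
      exact (X.split ho hh (key h hh hc)).1
    -- claim 2
    have cl2 : ∀ b, Atom S p b → (∃ h, C S p h ∧ h ≠ 0 ∧ C S h b) →
        (∀ h, C S p h → C S h a → C S h b) ∨ Orth S p a b := by
      intro b hb hex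
      by_cases h1 : ∀ h, C S p h → C S h a → C S h b
      · exact Or.inl h1
      right
      by_cases h2 : ∀ h, C S p h → C S h b → C S h a
      · exfalso
        apply h1
        exact xc_eq h2 (hmin b ⟨hb, hex⟩)
      push Not at h1 h2
      obtain ⟨p1, a1, a2, a3⟩ := h1
      obtain ⟨p2, b1, b2, b3⟩ := h2
      exact X.lam ha hb a1 b1 a2 a3 b2 b3
    obtain ⟨e, he, ea, ew⟩ := id how0
    by_cases h0' : e + p = 0
    · have hep : e = p := eo h0'
      rw [hep] at ew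
      refine ⟨h0, hh0, hh00, fun h => ha.1 (h ▸ hh0a), fun f w hf hf0 hfp hk =>
        X.good hh0 ?_ _ w f rfl hf hf0 hfp hk⟩
      intro b hb hex
      rcases cl2 b hb hex with h | h
      · exact Kf.of_C (h _ hh0 hh0a)
      · exact absurd (cl1 b hb h p X.pp ew) hb.1
    · refine ⟨e + p, he.add X.pp, h0', fun h => ha.1 (h ▸ ea), fun f w hf hf0 hfp hk =>
        X.good (he.add X.pp) ?_ _ w f rfl hf hf0 hfp hk⟩
      intro b hb hex
      rcases cl2 b hb hex with h | h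
      · exact Kf.of_C (h _ (he.add X.pp) ea)
      · exact Kf.of_C' ((cl1 b hb h e he ew).of_eq (by exact eo (by abel_nf <;> simp only [ch2, ch3, ch4, ch5, ch6, add_zero, zero_add])) rfl)
  · obtain ⟨q0, h1, h2, h3⟩ := hq
    refine ⟨q0, h1, h2, h3, fun f w hf hf0 hfp hk => X.good h1 ?_ _ w f rfl hf hf0 hfp hk⟩
    intro b hb hex
    exact absurd ⟨b, hb, hex⟩ hA

end Cm

end Pool.Agent.ETCF
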