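import Pool.Agent.ETCF.End

/-!
# Commutative value groups for quaternionic structures (helper50)
-/

set_option autoImplicit false
set_option linter.unnecessarySeqFocus false
set_option linter.unusedVariables false
set_option linter.unusedSimpArgs false

namespace Pool.Agent.ETCF

open QS
open Pool.Agent.Helper58.PLine (QData)
open Pool.Agent.ETCP

/-- **Theorem.** A finite quaternionic structure with `-1 = 1` and a commutative value group `V_p`,
`p ≠ 1`, is a group extension or a direct product of two nontrivial structures. -/
theorem comm_case (S : QStruct) [Finite S.G] (hneg : S.neg = 1) {p : S.G} (hp : p ≠ 1)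
    (hcomm : ∀ g h, S.q p g = S.zero → S.q p h = S.zero → S.q g h = S.zero) :
    (∃ T : QStruct, Iso S (ext T)) ∨ Decomp S := by
  classical
  let D : QData (Additive S.G) S.Q := ETC.toData S
  have he : D.e = 0 := by
    show Additive.ofMul S.neg = 0
    rw [hneg]; rfl
  have hfin : Finite (Additive S.G) := (inferInstance : Finite S.G)
  have X : Cm D (Additive.ofMul p) := ⟨he, fun g h hg hh => hcomm _ _ hg hh⟩
  rcases comm_data X (fun h => hp h) with ⟨u, hu, hr⟩ | ⟨e, h1, h2, h3, h4⟩
  · apply ETCP.small S hneg (p := Additive.toMul u) (fun h => hu h)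
    have hcard : Nat.card {x // S.q (Additive.toMul u) x = S.zero} ≤
        Nat.card ({1, Additive.toMul u} : Finset S.G) := by
      apply Nat.card_le_card_of_injective
        (fun x : {x // S.q (Additive.toMul u) x = S.zero} =>
          (⟨x.1, by
            rw [Finset.mem_insert, Finset.mem_singleton]
            exact hr (Additive.ofMul x.1) x.2⟩ : ({1, Additive.toMul u} : Finset S.G)))
      intro a b hab
      apply Subtype.ext
      exact congrArg (fun t : ({1, Additive.toMul u} : Finset S.G) => t.1) hab
    refine hcard.trans ?_
    rw [Nat.card_eq_fintype_card, Fintype.card_coe]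
    exact (Finset.card_le_two).trans (by norm_num)
  · right
    refine decomp_of_ctx S hneg hp (v := Additive.toMul e) (fun h => h2 h) (fun h => h3 h) h1
      hcomm ?_
    intro w
    obtain ⟨θ, a1, a2⟩ := h4 (Additive.ofMul w)
    refine ⟨Additive.toMul θ, w * Additive.toMul θ, a1, a2, ?_⟩
    rw [mul_comm w, ← mul_assoc, S.exp_two, one_mul]

end Pool.Agent.ETCF
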